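import Mathlib

set_option autoImplicit false

namespace Pool.Agent.Helper349_Large

universe u

open Cardinal Set

/-! ### Hulls under countably many unary operations in a group -/

section Hull

variable {G : Type u} [Group G] (op : ℕ → G → G)

/-- The unary operations, with the inverse added. -/
def op' : ℕ → G → G
  | 0 => fun g => g⁻¹
  | (n + 1) => op n

/-- Arities of the term constructors. -/
def Ar (S : Set G) : Option S ⊕ (Unit ⊕ ℕ) → Type
  | Sum.inl _ => Fin 0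
  | Sum.inr (Sum.inl _) => Bool
  | Sum.inr (Sum.inr _) => Unit

instance (S : Set G) (a : Option S ⊕ (Unit ⊕ ℕ)) : Finite (Ar S a) := by
  rcases a with a | a | a
  · exact inferInstanceAs (Finite (Fin 0))
  · exact inferInstanceAs (Finite Bool)
  · exact inferInstanceAs (Finite Unit)

/-- Evaluation step. -/
def evStep (S : Set G) : (Σ a : Option S ⊕ (Unit ⊕ ℕ), Ar S a → G) → G
  | ⟨Sum.inl none, _⟩ => 1
  | ⟨Sum.inl (some s), _⟩ => (s : G)
  | ⟨Sum.inr (Sum.inl _), f⟩ => f false * f true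
  | ⟨Sum.inr (Sum.inr n), f⟩ => op' op n (f ())

/-- Evaluation of terms. -/
def ev (S : Set G) : WType (Ar S) → G := WType.elim G (evStep op S)

/-- The smallest subgroup containing `S` and closed under the operations. -/
def hull (S : Set G) : Subgroup G where
  carrier := Set.range (ev op S)
  one_mem' := ⟨WType.mk (Sum.inl none) (fun i => Fin.elim0 i), rfl⟩
  mul_mem' := by
    rintro _ _ ⟨w1, rfl⟩ ⟨w2, rfl⟩
    exact ⟨WType.mk (Sum.inr (Sum.inl ())) (fun b : Bool => cond b w2 w1), rfl⟩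
  inv_mem' := by
    rintro _ ⟨w, rfl⟩
    exact ⟨WType.mk (Sum.inr (Sum.inr 0)) (fun _ => w), rfl⟩

theorem subset_hull (S : Set G) : S ⊆ (hull op S : Set G) := by
  intro s hs
  exact ⟨WType.mk (Sum.inl (some ⟨s, hs⟩)) (fun i => Fin.elim0 i), rfl⟩

theorem op_mem_hull (S : Set G) (n : ℕ) (g : G) (hg : g ∈ hull op S) : op n g ∈ hull op S := by
  obtain ⟨w, rfl⟩ := hg
  exact ⟨WType.mk (Sum.inr (Sum.inr (n + 1))) (fun _ => w), rfl⟩

theorem hull_le (S : Set G) (N : Subgroup G) (hN : ∀ n g, g ∈ N → op n g ∈ N)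
    (hS : S ⊆ (N : Set G)) : hull op S ≤ N := by
  rintro _ ⟨w, rfl⟩
  induction w with
  | mk a f ih =>
    rcases a with (_ | s) | (_ | n)
    · exact N.one_mem
    · exact hS s.2
    · exact N.mul_mem (ih false) (ih true)
    · show op' op n (ev op S (f ())) ∈ N
      cases n with
      | zero => exact N.inv_mem (ih ())
      | succ k => exact hN k _ (ih ())

theorem mk_hull_le (S : Set G) : #(hull op S) ≤ max #S ℵ₀ := by
  have h1 : #(hull op S) ≤ #(WType (Ar S)) := Cardinal.mk_range_le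
  have h2 : #(WType (Ar S)) ≤ max (lift.{0} #(Option S ⊕ (Unit ⊕ ℕ))) ℵ₀ :=
    WType.cardinalMk_le_max_aleph0_of_finite'
  refine h1.trans (h2.trans ?_)
  rw [Cardinal.lift_uzero]
  refine max_le ?_ (le_max_right _ _)
  rw [mk_sum, lift_uzero, mk_option]
  refine (add_le_max _ _).trans ?_
  refine max_le (max_le ?_ ?_) (le_max_right _ _)
  · refine (add_le_max _ _).trans ?_
    refine max_le (max_le (le_max_left _ _) ?_) (le_max_right _ _)
    exact (Cardinal.one_le_aleph0).trans (le_max_right _ _)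
  · refine le_trans ?_ (le_max_right _ _)
    rw [lift_le_aleph0]
    exact mk_le_aleph0

end Hull

/-! ### Injective choice for countably many infinite sets -/

theorem countable_choice {ι : Type*} {α : Type*} [Countable ι] (S : ι → Set α)
    (hS : ∀ i, (S i).Infinite) : ∃ f : ι → α, Function.Injective f ∧ ∀ i, f i ∈ S i := by
  classical
  obtain ⟨e, he⟩ := Countable.exists_injective_nat ι
  have hch : ∀ i, ∃ t : Finset α, (t : Set α) ⊆ S i ∧ t.card = e i + 1 := fun i =>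
    (hS i).exists_subset_card_eq (e i + 1)
  choose t ht1 ht2 using hch
  have hall : ∀ s : Finset ι, s.card ≤ (s.biUnion t).card := by
    intro s
    rcases s.eq_empty_or_nonempty with rfl | hne
    · simp
    · obtain ⟨i, hi, hmax⟩ := s.exists_max_image e hne
      have h1 : s.card ≤ e i + 1 := by
        have : (s.image e).card = s.card := Finset.card_image_of_injective s he
        rw [← this, ← Finset.card_range (e i + 1)]
        apply Finset.card_le_card
        intro k hk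
        obtain ⟨j, hj, rfl⟩ := Finset.mem_image.mp hk
        exact Finset.mem_range.mpr (Nat.lt_succ_of_le (hmax j hj))
      rw [← ht2 i] at h1
      exact h1.trans (Finset.card_le_card (Finset.subset_biUnion_of_mem t hi))
  obtain ⟨f, hf1, hf2⟩ := (Finset.all_card_le_biUnion_card_iff_exists_injective t).mp hall
  exact ⟨f, hf1, fun i => ht1 i (hf2 i)⟩

/-! ### The induction over closed subgroups -/

section Induction

variable {G : Type u} [Group G]

/-- A subgroup closed under the operations. -/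
def Cl (op : ℕ → G → G) (N : Subgroup G) : Prop := ∀ n g, g ∈ N → op n g ∈ N

/-- The requirement `r` belongs to the subgroup `N`. -/
def Mm (r : G × G × Bool) (N : Subgroup G) : Prop := r.1 ∈ N ∧ r.2.1 ∈ N

/-- The statement proved by induction: injective choice for the requirements in `M` that are in no
member of the finite family `𝒩`, with values in `M` outside all members of `𝒩`. -/
def Good (C : G × G × Bool → Set G) (M : Subgroup G) (𝒩 : Set (Subgroup G)) : Prop :=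
  ∃ φ : G × G × Bool → G,
    (∀ r, Mm r M → (∀ N ∈ 𝒩, ¬ Mm r N) → φ r ∈ C r ∧ φ r ∈ M ∧ ∀ N ∈ 𝒩, φ r ∉ N) ∧
    (∀ r r', Mm r M → (∀ N ∈ 𝒩, ¬ Mm r N) → Mm r' M → (∀ N ∈ 𝒩, ¬ Mm r' N) →
      φ r = φ r' → r = r')

variable (op : ℕ → G → G) (C : G × G × Bool → Set G)

theorem good_countable
    (h1 : ∀ N : Subgroup G, Cl op N → ∀ r, Mm r N → C r ⊆ (N : Set G))
    (h2 : ∀ 𝒩 : Set (Subgroup G), 𝒩.Finite → (∀ N ∈ 𝒩, Cl op N) → ∀ r, (∀ N ∈ 𝒩, ¬ Mm r N) →
      {y | y ∈ C r ∧ ∀ N ∈ 𝒩, y ∉ N}.Infinite)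
    (M : Subgroup G) (hM : Cl op M) (hc : #M ≤ ℵ₀) (𝒩 : Set (Subgroup G)) (hf : 𝒩.Finite)
    (hcl : ∀ N ∈ 𝒩, Cl op N) : Good C M 𝒩 := by
  classical
  let ι := {r : G × G × Bool // Mm r M ∧ ∀ N ∈ 𝒩, ¬ Mm r N}
  have hMc : Countable M := Cardinal.mk_le_aleph0_iff.mp hc
  have hι : Countable ι := by
    have : Function.Injective (fun r : ι => ((⟨r.1.1, r.2.1.1⟩, ⟨r.1.2.1, r.2.1.2⟩, r.1.2.2) :
        M × M × Bool)) := by
      rintro ⟨⟨a, b, c⟩, h⟩ ⟨⟨a', b', c'⟩, h'⟩ hh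
      simp only [Prod.mk.injEq, Subtype.mk.injEq] at hh
      obtain ⟨rfl, rfl, rfl⟩ := hh
      rfl
    exact this.countable
  obtain ⟨f, hf1, hf2⟩ := countable_choice (fun r : ι => {y | y ∈ C r.1 ∧ ∀ N ∈ 𝒩, y ∉ N})
    (fun r => h2 𝒩 hf hcl r.1 r.2.2)
  refine ⟨fun r => if h : Mm r M ∧ ∀ N ∈ 𝒩, ¬ Mm r N then f ⟨r, h⟩ else 1, ?_, ?_⟩
  · intro r hr hr'
    have h : Mm r M ∧ ∀ N ∈ 𝒩, ¬ Mm r N := ⟨hr, hr'⟩
    simp only [dif_pos h]
    have := hf2 ⟨r, h⟩
    exact ⟨this.1, h1 M hM r hr this.1, this.2⟩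
  · intro r r' hr hr2 hs hs2 heq
    have h : Mm r M ∧ ∀ N ∈ 𝒩, ¬ Mm r N := ⟨hr, hr2⟩
    have h' : Mm r' M ∧ ∀ N ∈ 𝒩, ¬ Mm r' N := ⟨hs, hs2⟩
    simp only [dif_pos h, dif_pos h'] at heq
    have := hf1 heq
    exact congrArg Subtype.val this

theorem good_all
    (h1 : ∀ N : Subgroup G, Cl op N → ∀ r, Mm r N → C r ⊆ (N : Set G))
    (h2 : ∀ 𝒩 : Set (Subgroup G), 𝒩.Finite → (∀ N ∈ 𝒩, Cl op N) → ∀ r, (∀ N ∈ 𝒩, ¬ Mm r N) →
      {y | y ∈ C r ∧ ∀ N ∈ 𝒩, y ∉ N}.Infinite) :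
    ∀ (c : Cardinal.{u}) (M : Subgroup G), #M = c → Cl op M → ∀ (𝒩 : Set (Subgroup G)), 𝒩.Finite →
      (∀ N ∈ 𝒩, Cl op N) → Good C M 𝒩 := by
  classical
  intro c
  induction c using WellFoundedLT.induction with
  | ind c IH =>
  intro M hMc hM 𝒩 hf hcl
  by_cases hcount : c ≤ ℵ₀
  · exact good_countable op C h1 h2 M hM (hMc ▸ hcount) 𝒩 hf hcl
  push Not at hcount
  obtain ⟨lo, wf, hord⟩ := exists_ord_eq_type_lt M
  have hIic : ∀ m : M, #(Set.Iic m) < c := by
    intro m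
    have e1 : #(Set.Iio m) < c := by rw [← hMc]; exact mk_Iio_lt m hord
    have e2 : Set.Iic m = insert m (Set.Iio m) := by
      ext z; simp [le_iff_eq_or_lt]
    rw [e2]
    refine (mk_insert_le).trans_lt ?_
    exact add_lt_of_lt hcount.le e1 (one_lt_aleph0.trans hcount)
  let up : M → Subgroup G := fun m => hull op (Subtype.val '' Set.Iic m)
  have hup_cl : ∀ m, Cl op (up m) := fun m n g hg => op_mem_hull op _ n g hg
  have hup_le : ∀ m, up m ≤ M := by
    intro m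
    apply hull_le op _ M hM
    rintro _ ⟨z, _, rfl⟩
    exact z.2
  have hup_mono : ∀ m m', m ≤ m' → up m ≤ up m' := by
    intro m m' h
    apply hull_le op _ _ (hup_cl m')
    refine Set.Subset.trans ?_ (subset_hull op _)
    exact Set.image_mono (Set.Iic_subset_Iic.mpr h)
  have hup_mem : ∀ m : M, (m : G) ∈ up m := fun m =>
    subset_hull op _ ⟨m, le_refl m, rfl⟩
  have hup_card : ∀ m, #(up m) < c := by
    intro m
    refine (mk_hull_le op _).trans_lt ?_
    refine max_lt ?_ hcount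
    exact mk_image_le.trans_lt (hIic m)
  -- the lower part
  let K : (m : M) → (∃ m' : M, m' < m) → Subgroup G := fun m h =>
    { carrier := {z | ∃ m' : M, m' < m ∧ z ∈ up m'}
      one_mem' := by
        obtain ⟨m', hm'⟩ := h
        exact ⟨m', hm', (up m').one_mem⟩
      mul_mem' := by
        rintro a b ⟨p, hp, ha⟩ ⟨q, hq, hb⟩
        exact ⟨max p q, max_lt hp hq, (up _).mul_mem (hup_mono _ _ (le_max_left p q) ha)
          (hup_mono _ _ (le_max_right p q) hb)⟩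
      inv_mem' := by
        rintro a ⟨p, hp, ha⟩
        exact ⟨p, hp, (up p).inv_mem ha⟩ }
  have hK_mem : ∀ (m : M) (h : ∃ m' : M, m' < m) (z : G), z ∈ K m h ↔
      ∃ m' : M, m' < m ∧ z ∈ up m' := fun m h z => Iff.rfl
  have hK_cl : ∀ (m : M) (h : ∃ m' : M, m' < m), Cl op (K m h) := by
    rintro m h n g ⟨m', hm', hg⟩
    exact ⟨m', hm', hup_cl m' n g hg⟩
  let 𝒩' : M → Set (Subgroup G) := fun m =>
    if h : ∃ m' : M, m' < m then insert (K m h) 𝒩 else 𝒩
  have h𝒩'sub : ∀ m, 𝒩 ⊆ 𝒩' m := by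
    intro m N hN
    simp only [𝒩']
    split_ifs with h
    · exact Set.mem_insert_of_mem _ hN
    · exact hN
  have h𝒩'K : ∀ m (h : ∃ m' : M, m' < m), K m h ∈ 𝒩' m := by
    intro m h
    simp only [𝒩']
    rw [dif_pos h]
    exact Set.mem_insert _ _
  have h𝒩'fin : ∀ m, (𝒩' m).Finite := by
    intro m
    simp only [𝒩']
    split_ifs with h
    · exact hf.insert _
    · exact hf
  have h𝒩'cl : ∀ m, ∀ N ∈ 𝒩' m, Cl op N := by
    intro m N hN
    simp only [𝒩'] at hN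
    split_ifs at hN with h
    · rcases hN with rfl | hN
      · exact hK_cl m h
      · exact hcl N hN
    · exact hcl N hN
  have h𝒩'not : ∀ m r, (∀ N ∈ 𝒩, ¬ Mm r N) → (∀ m' : M, m' < m → ¬ Mm r (up m')) →
      ∀ N ∈ 𝒩' m, ¬ Mm r N := by
    intro m r hr hm N hN
    simp only [𝒩'] at hN
    split_ifs at hN with h
    · rcases hN with rfl | hN
      · rintro ⟨⟨p, hp, hp'⟩, ⟨q, hq, hq'⟩⟩
        exact hm (max p q) (max_lt hp hq) ⟨hup_mono _ _ (le_max_left p q) hp',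
          hup_mono _ _ (le_max_right p q) hq'⟩
      · exact hr N hN
    · exact hr N hN
  have hIH : ∀ m, Good C (up m) (𝒩' m) := fun m =>
    IH (#(up m)) (hup_card m) (up m) rfl (hup_cl m) (𝒩' m) (h𝒩'fin m) (h𝒩'cl m)
  choose φ hφ1 hφ2 using hIH
  -- ranks
  have hrk : ∀ r, Mm r M → ∃ m : M, Mm r (up m) ∧ ∀ m' : M, m' < m → ¬ Mm r (up m') := by
    intro r hr
    have hne : {m : M | Mm r (up m)}.Nonempty := by
      refine ⟨max ⟨r.1, hr.1⟩ ⟨r.2.1, hr.2⟩, ?_, ?_⟩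
      · exact hup_mono _ _ (le_max_left _ _) (hup_mem ⟨r.1, hr.1⟩)
      · exact hup_mono _ _ (le_max_right _ _) (hup_mem ⟨r.2.1, hr.2⟩)
    refine ⟨wellFounded_lt.min _ hne, wellFounded_lt.min_mem _ hne, ?_⟩
    intro m' hm' hmem
    exact wellFounded_lt.not_lt_min {m : M | Mm r (up m)} hmem hm'
  choose! rk hrk1 hrk2 using hrk
  have hval : ∀ r, Mm r M → (∀ N ∈ 𝒩, ¬ Mm r N) → φ (rk r) r ∈ C r ∧ φ (rk r) r ∈ up (rk r) ∧
      ∀ N ∈ 𝒩' (rk r), φ (rk r) r ∉ N := by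
    intro r hr hr'
    exact hφ1 (rk r) r (hrk1 r hr) (h𝒩'not _ _ hr' (hrk2 r hr))
  have hlt : ∀ r r', Mm r M → (∀ N ∈ 𝒩, ¬ Mm r N) → Mm r' M → (∀ N ∈ 𝒩, ¬ Mm r' N) →
      rk r < rk r' → φ (rk r) r ≠ φ (rk r') r' := by
    intro r r' hr hr2 hs hs2 hlt heq
    have a := (hval r hr hr2).2.1
    have b := (hval r' hs hs2).2.2 (K (rk r') ⟨rk r, hlt⟩) (h𝒩'K (rk r') ⟨rk r, hlt⟩)
    apply b
    rw [← heq]
    exact ⟨rk r, hlt, a⟩
  refine ⟨fun r => φ (rk r) r, ?_, ?_⟩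
  · intro r hr hr'
    obtain ⟨a, b, c'⟩ := hval r hr hr'
    exact ⟨a, hup_le _ b, fun N hN => c' N (h𝒩'sub _ hN)⟩
  · intro r r' hr hr2 hs hs2 heq
    rcases lt_trichotomy (rk r) (rk r') with h | h | h
    · exact absurd heq (hlt r r' hr hr2 hs hs2 h)
    · simp only at heq
      have e := hrk1 r' hs
      have e2 := hrk2 r' hs
      rw [← h] at e e2 heq
      exact hφ2 (rk r) r r' (hrk1 r hr) (h𝒩'not _ _ hr2 (hrk2 r hr)) e
        (h𝒩'not _ _ hs2 e2) heq
    · exact absurd heq.symm (hlt r' r hs hs2 hr hr2 h)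

/-- The whole group: an injective choice of points for all requirements. -/
theorem exists_injective
    (h1 : ∀ N : Subgroup G, Cl op N → ∀ r, Mm r N → C r ⊆ (N : Set G))
    (h2 : ∀ 𝒩 : Set (Subgroup G), 𝒩.Finite → (∀ N ∈ 𝒩, Cl op N) → ∀ r, (∀ N ∈ 𝒩, ¬ Mm r N) →
      {y | y ∈ C r ∧ ∀ N ∈ 𝒩, y ∉ N}.Infinite) :
    ∃ φ : G × G × Bool → G, Function.Injective φ ∧ ∀ r, φ r ∈ C r := by
  obtain ⟨φ, ha, hb⟩ := good_all op C h1 h2 _ (⊤ : Subgroup G) rfl
    (fun _ _ _ => Subgroup.mem_top _) ∅ Set.finite_empty (fun N hN => absurd hN (by simp))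
  refine ⟨φ, ?_, ?_⟩
  · intro r r' h
    exact hb r r' ⟨Subgroup.mem_top _, Subgroup.mem_top _⟩ (fun N hN => absurd hN (by simp))
      ⟨Subgroup.mem_top _, Subgroup.mem_top _⟩ (fun N hN => absurd hN (by simp)) h
  · intro r
    exact (ha r ⟨Subgroup.mem_top _, Subgroup.mem_top _⟩ (fun N hN => absurd hN (by simp))).1

end Induction

end Pool.Agent.Helper349_Large
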