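import Pool.Agent.Helper349_Large.Core

set_option autoImplicit false

namespace Pool.Agent.Helper349_Large

universe u

open Cardinal Set
open scoped Pointwise

variable {G : Type u} [Group G]

/-- A sequence all of whose differences avoid a small set. -/
theorem exists_seq (hG : ℵ₀ < #G) (Bad : Set G) (hBad : #Bad < #G) :
    ∃ s : ℕ → G, ∀ n m, n < m → (s n)⁻¹ * s m ∉ Bad := by
  classical
  obtain ⟨s, -, hs⟩ := exists_seq_of_forall_finset_exists (fun _ : G => True)
    (fun x y => x⁻¹ * y ∉ Bad) (by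
      intro F _
      have h1 : #(((F : Set G) * Bad : Set G)) < #G := by
        refine (Cardinal.mk_image2_le).trans_lt ?_
        refine mul_lt_of_lt hG.le ?_ hBad
        exact (lt_aleph0_of_finite _).trans hG
      have h2 : ((F : Set G) * Bad : Set G) ≠ Set.univ := by
        intro h
        rw [h, mk_univ] at h1
        exact lt_irrefl _ h1
      obtain ⟨y, hy⟩ := (Set.ne_univ_iff_exists_notMem _).mp h2
      refine ⟨y, trivial, ?_⟩
      intro x hx hxy
      exact hy (Set.mem_mul.mpr ⟨x, hx, x⁻¹ * y, hxy, by group⟩))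
  exact ⟨s, fun n m h => hs n m h⟩

/-- Sequences `t g` whose differences determine `g`. -/
theorem exists_t (hG : ℵ₀ < #G) : ∃ t : G → ℕ → G,
    (∀ g n m, n < m → (t g n)⁻¹ * t g m ≠ 1) ∧
    ∀ g g' n m n' m', n < m → n' < m' → (t g n)⁻¹ * t g m = (t g' n')⁻¹ * t g' m' → g = g' := by
  classical
  obtain ⟨lo, wf, hord⟩ := exists_ord_eq_type_lt G
  let F : (g : G) → ((g' : G) → g' < g → (ℕ → G)) → (ℕ → G) := fun g ih =>
    if h : ∃ s : ℕ → G, ∀ n m, n < m → (s n)⁻¹ * s m ∉
      (insert 1 {z | ∃ g', ∃ h : g' < g, ∃ n m, n < m ∧ z = (ih g' h n)⁻¹ * ih g' h m} : Set G)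
      then h.choose else fun _ => 1
  let t : G → ℕ → G := wellFounded_lt.fix F
  have ht : ∀ g, t g = F g (fun g' _ => t g') := fun g => WellFounded.fix_eq _ _ _
  have hspec : ∀ g n m, n < m → (t g n)⁻¹ * t g m ∉
      (insert 1 {z | ∃ g', ∃ _ : g' < g, ∃ n m, n < m ∧ z = (t g' n)⁻¹ * t g' m} : Set G) := by
    intro g
    have hex : ∃ s : ℕ → G, ∀ n m, n < m → (s n)⁻¹ * s m ∉
        (insert 1 {z | ∃ g', ∃ _ : g' < g, ∃ n m, n < m ∧ z = (t g' n)⁻¹ * t g' m} : Set G) := by
      apply exists_seq hG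
      refine (mk_insert_le).trans_lt ?_
      refine add_lt_of_lt hG.le ?_ (one_lt_aleph0.trans hG)
      have h1 : #({z | ∃ g', ∃ _ : g' < g, ∃ n m, n < m ∧ z = (t g' n)⁻¹ * t g' m} : Set G) ≤
          #(Set.Iio g × ℕ × ℕ) := by
        have : ({z | ∃ g', ∃ _ : g' < g, ∃ n m, n < m ∧ z = (t g' n)⁻¹ * t g' m} : Set G) ⊆
            Set.range (fun p : Set.Iio g × ℕ × ℕ => (t p.1 p.2.1)⁻¹ * t p.1 p.2.2) := by
          rintro z ⟨g', hg', n, m, _, rfl⟩
          exact ⟨(⟨g', hg'⟩, n, m), rfl⟩
        exact (mk_le_mk_of_subset this).trans mk_range_le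
      refine h1.trans_lt ?_
      rw [mk_prod, mk_prod]
      simp only [lift_id, mk_nat, lift_uzero, lift_aleph0, aleph0_mul_aleph0]
      exact mul_lt_of_lt hG.le (mk_Iio_lt g hord) hG
    have e : t g = hex.choose := by
      rw [ht g]
      simp only [F]
      rw [dif_pos hex]
    rw [e]
    exact hex.choose_spec
  refine ⟨t, ?_, ?_⟩
  · intro g n m h h1
    exact hspec g n m h (by rw [h1]; exact Set.mem_insert _ _)
  · intro g g' n m n' m' h h' heq
    rcases lt_trichotomy g g' with hlt | hlt | hlt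
    · exfalso
      apply hspec g' n' m' h'
      right
      exact ⟨g, hlt, n, m, h, heq.symm⟩
    · exact hlt
    · exfalso
      apply hspec g n m h
      right
      exact ⟨g', hlt, n', m', h', heq⟩

/-- A countable subgroup for each `g`, and the injective choice. -/
theorem exists_choice (hG : ℵ₀ < #G) : ∃ F : G → Subgroup G, (∀ g, (F g : Set G).Countable) ∧
    ∃ φ : G × G × Bool → G, Function.Injective φ ∧
      (∀ g x, ∃ f ∈ F g, φ (g, x, true) = x * f) ∧
      (∀ g x, ∃ f ∈ F g, φ (g, x, false) = f * x) := by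
  classical
  obtain ⟨t, ht1, ht2⟩ := exists_t hG
  let op : ℕ → G → G := fun k => match k with
    | 0 => fun z => if h : ∃ g, ∃ n m, n < m ∧ z = (t g n)⁻¹ * t g m then h.choose else 1
    | (n + 1) => fun g => t g n
  have hop0 : ∀ g n m, n < m → op 0 ((t g n)⁻¹ * t g m) = g := by
    intro g n m hnm
    have h : ∃ g', ∃ n' m', n' < m' ∧ (t g n)⁻¹ * t g m = (t g' n')⁻¹ * t g' m' :=
      ⟨g, n, m, hnm, rfl⟩
    show (if h : ∃ g', ∃ n' m', n' < m' ∧ (t g n)⁻¹ * t g m = (t g' n')⁻¹ * t g' m'
      then h.choose else 1) = g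
    rw [dif_pos h]
    obtain ⟨n', m', hnm', heq⟩ := h.choose_spec
    exact (ht2 _ _ _ _ _ _ hnm hnm' heq).symm
  have hops : ∀ n g, op (n + 1) g = t g n := fun n g => rfl
  let F : G → Subgroup G := fun g => hull (fun _ x => x) (Set.range (t g))
  have hFmem : ∀ g n, t g n ∈ F g := fun g n => subset_hull _ _ ⟨n, rfl⟩
  have hFc : ∀ g, (F g : Set G).Countable := by
    intro g
    have h1 : #(F g) ≤ max #(Set.range (t g)) ℵ₀ := mk_hull_le _ _
    have h2 : #(Set.range (t g)) ≤ ℵ₀ := by
      have := (Set.countable_range (t g))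
      exact this.le_aleph0
    have h3 : #(F g) ≤ ℵ₀ := h1.trans (max_le h2 le_rfl)
    exact Cardinal.le_aleph0_iff_set_countable.mp h3
  have hFle : ∀ g (N : Subgroup G), Cl op N → g ∈ N → F g ≤ N := by
    intro g N hN hg
    apply hull_le
    · intro _ x hx; exact hx
    · rintro _ ⟨n, rfl⟩
      have := hN (n + 1) g hg
      rwa [hops] at this
  let C : G × G × Bool → Set G := fun r =>
    if r.2.2 then {y | ∃ f ∈ F r.1, y = r.2.1 * f} else {y | ∃ f ∈ F r.1, y = f * r.2.1}
  -- infinitely many cosets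
  have hinf : ∀ g (N : Subgroup G), Cl op N → g ∉ N → ¬ (N.subgroupOf (F g)).FiniteIndex := by
    intro g N hN hg hfi
    have := Subgroup.finite_quotient_of_finiteIndex (H := N.subgroupOf (F g))
    have hinj : Function.Injective (fun n : ℕ => (QuotientGroup.mk (⟨t g n, hFmem g n⟩ : F g) :
        F g ⧸ N.subgroupOf (F g))) := by
      have key : ∀ n m, n < m → (QuotientGroup.mk (⟨t g n, hFmem g n⟩ : F g) :
        F g ⧸ N.subgroupOf (F g)) ≠ QuotientGroup.mk (⟨t g m, hFmem g m⟩ : F g) := by
        intro n m hnm h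
        rw [QuotientGroup.eq] at h
        have h2 : (t g n)⁻¹ * t g m ∈ N := h
        have h3 := hN 0 _ h2
        rw [hop0 g n m hnm] at h3
        exact hg h3
      intro n m h
      rcases lt_trichotomy n m with h' | h' | h'
      · exact absurd h (key n m h')
      · exact h'
      · exact absurd h.symm (key m n h')
    exact not_injective_infinite_finite _ hinj
  have hFinf : ∀ g, Infinite (F g) := by
    intro g
    apply Infinite.of_injective (fun n : ℕ => (⟨t g n, hFmem g n⟩ : F g))
    intro n m h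
    have h' : t g n = t g m := congrArg Subtype.val h
    rcases lt_trichotomy n m with h2 | h2 | h2
    · exact absurd (by rw [h']; group) (ht1 g n m h2)
    · exact h2
    · exact absurd (by rw [h']; group) (ht1 g m n h2)
  have hleft : ∀ 𝒩 : Set (Subgroup G), 𝒩.Finite → (∀ N ∈ 𝒩, Cl op N) → ∀ g x,
      (∀ N ∈ 𝒩, ¬ (g ∈ N ∧ x ∈ N)) → {f : F g | ∀ N ∈ 𝒩, x * (f : G) ∉ N}.Infinite := by
    intro 𝒩 hf hcl g x hno hfin
    have := hFinf g
    let s : Finset (F g ⊕ Subgroup G) :=
      (hfin.toFinset.image Sum.inl) ∪ ((hf.toFinset.filter (fun N => g ∉ N)).image Sum.inr)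
    let H : F g ⊕ Subgroup G → Subgroup (F g) := fun i => match i with
      | Sum.inl _ => ⊥
      | Sum.inr N => N.subgroupOf (F g)
    let c : F g ⊕ Subgroup G → F g := fun i => match i with
      | Sum.inl f => f
      | Sum.inr N => if h : ∃ f : F g, x * (f : G) ∈ N then h.choose else 1
    have hcov : ⋃ i ∈ s, (c i) • (H i : Set (F g)) = Set.univ := by
      apply Set.eq_univ_of_forall
      intro f
      simp only [Set.mem_iUnion]
      by_cases h : ∀ N ∈ 𝒩, x * (f : G) ∉ N
      · refine ⟨Sum.inl f, ?_, ?_⟩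
        · simp only [s, Finset.mem_union, Finset.mem_image]
          left
          exact ⟨f, hfin.mem_toFinset.mpr h, rfl⟩
        · refine ⟨1, ?_, by simp [c]⟩
          exact (H (Sum.inl f)).one_mem
      · push Not at h
        obtain ⟨N, hN, hfN⟩ := h
        have hgN : g ∉ N := by
          intro hg
          apply hno N hN
          refine ⟨hg, ?_⟩
          have := N.mul_mem hfN (N.inv_mem (hFle g N (hcl N hN) hg f.2))
          simpa using this
        refine ⟨Sum.inr N, ?_, ?_⟩
        · simp only [s, Finset.mem_union, Finset.mem_image, Finset.mem_filter]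
          right
          exact ⟨N, ⟨hf.mem_toFinset.mpr hN, hgN⟩, rfl⟩
        · have hex : ∃ f : F g, x * (f : G) ∈ N := ⟨f, hfN⟩
          have hc : c (Sum.inr N) = hex.choose := by
            simp only [c]
            rw [dif_pos hex]
          rw [hc, Set.mem_smul_set_iff_inv_smul_mem]
          show (((hex.choose)⁻¹ * f : F g) : G) ∈ N
          have h5 := N.mul_mem (N.inv_mem hex.choose_spec) hfN
          have h6 : (((hex.choose)⁻¹ * f : F g) : G) = (x * ((hex.choose : F g) : G))⁻¹ * (x * f) := by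
            push_cast
            group
          rw [h6]
          exact h5
    obtain ⟨i, hi, hfi⟩ := Subgroup.exists_finiteIndex_of_leftCoset_cover hcov
    simp only [s, Finset.mem_union, Finset.mem_image, Finset.mem_filter] at hi
    rcases hi with ⟨f, _, rfl⟩ | ⟨N, ⟨hN, hgN⟩, rfl⟩
    · have hfi' : (⊥ : Subgroup (F g)).FiniteIndex := hfi
      have := Subgroup.finite_quotient_of_finiteIndex (H := (⊥ : Subgroup (F g)))
      have h2 : Finite (F g) := Finite.of_equiv _ (QuotientGroup.quotientBot (G := F g)).toEquiv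
      exact not_finite (F g)
    · exact hinf g N (hcl N (hf.mem_toFinset.mp hN)) hgN hfi
  obtain ⟨φ, hφ1, hφ2⟩ := exists_injective op C (by
      rintro N hN ⟨g, x, b⟩ ⟨hg, hx⟩ y hy
      simp only at hg hx
      cases b with
      | true =>
        obtain ⟨f, hf, rfl⟩ : ∃ f ∈ F g, y = x * f := by simpa [C] using hy
        exact N.mul_mem hx (hFle g N hN hg hf)
      | false =>
        obtain ⟨f, hf, rfl⟩ : ∃ f ∈ F g, y = f * x := by simpa [C] using hy
        exact N.mul_mem (hFle g N hN hg hf) hx) (by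
      rintro 𝒩 hf hcl ⟨g, x, b⟩ hno
      have hno' : ∀ N ∈ 𝒩, ¬ (g ∈ N ∧ x ∈ N) := hno
      cases b with
      | true =>
        have h := hleft 𝒩 hf hcl g x hno'
        have h2 := h.image (f := fun f : F g => x * (f : G)) (by
          intro a _ b _ hab
          exact Subtype.ext (mul_left_cancel hab))
        refine h2.mono ?_
        rintro _ ⟨f, hf, rfl⟩
        refine ⟨?_, hf⟩
        simp only [C, if_true]
        exact ⟨f, f.2, rfl⟩
      | false =>
        have h := hleft 𝒩 hf hcl g x⁻¹ (by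
          intro N hN hh
          exact hno' N hN ⟨hh.1, by simpa using N.inv_mem hh.2⟩)
        have h2 := h.image (f := fun f : F g => (f : G)⁻¹ * x) (by
          intro a _ b _ hab
          exact Subtype.ext (inv_injective (mul_right_cancel hab)))
        refine h2.mono ?_
        rintro _ ⟨f, hf, rfl⟩
        refine ⟨?_, ?_⟩
        · simp only [C]
          exact ⟨(f : G)⁻¹, (F g).inv_mem f.2, rfl⟩
        · intro N hN hmem
          apply hf N hN
          have := N.inv_mem hmem
          simpa using this)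
  refine ⟨F, hFc, φ, hφ1, ?_, ?_⟩
  · intro g x
    have := hφ2 (g, x, true)
    simpa [C] using this
  · intro g x
    have := hφ2 (g, x, false)
    simpa [C] using this

/-- A colouring of `G` by `G` with all colour classes left and right large. -/
theorem exists_colouring (hG : ℵ₀ < #G) : ∃ A : G → Set G,
    Pairwise (fun c d => Disjoint (A c) (A d)) ∧ (⋃ c, A c) = Set.univ ∧
    ∀ c, ∃ F : Set G, F.Countable ∧ F * A c = Set.univ ∧ A c * F = Set.univ := by
  classical
  obtain ⟨F, hF, φ, hφ, hl, hr⟩ := exists_choice hG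
  let col : G → G := fun y => if h : ∃ r, φ r = y then h.choose.1 else 1
  have hcol : ∀ r, col (φ r) = r.1 := by
    intro r
    have h : ∃ r', φ r' = φ r := ⟨r, rfl⟩
    simp only [col]
    rw [dif_pos h]
    rw [hφ h.choose_spec]
  refine ⟨fun c => {y | col y = c}, ?_, ?_, ?_⟩
  · intro c d hcd
    rw [Set.disjoint_left]
    intro y hy hy'
    exact hcd (hy.symm.trans hy')
  · apply Set.eq_univ_of_forall
    intro y
    rw [Set.mem_iUnion]
    exact ⟨col y, rfl⟩
  · intro c
    refine ⟨(F c : Set G), hF c, ?_, ?_⟩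
    · apply Set.eq_univ_of_forall
      intro x
      obtain ⟨f, hf, hfx⟩ := hr c x
      refine Set.mem_mul.mpr ⟨f⁻¹, (F c).inv_mem hf, f * x, ?_, by group⟩
      rw [← hfx]
      exact hcol _
    · apply Set.eq_univ_of_forall
      intro x
      obtain ⟨f, hf, hfx⟩ := hl c x
      refine Set.mem_mul.mpr ⟨x * f, ?_, f⁻¹, (F c).inv_mem hf, by group⟩
      rw [← hfx]
      exact hcol _

end Pool.Agent.Helper349_Large
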